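import Mathlib

/-!
A length-increasing multiplicative well-quasi-order on `{a,b}*` which contains no
well-quasi-order of the form `⇒_P^*` for a finite production system `P`.
-/

namespace Pool.Agent.Results.MP_577ba1_lc.NoFiniteSystem

open Relation

/-- Every infinite sequence has `i < j` with `r (f i) (f j)`. -/
def WQO {α : Type} (r : α → α → Prop) : Prop := ∀ f : ℕ → α, ∃ i j, i < j ∧ r (f i) (f j)

/-- Length-increasing multiplicative well-quasi-orders on the free monoid. -/
structure Good {A : Type} (r : List A → List A → Prop) : Prop where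
  refl : ∀ x, r x x
  trans : ∀ x y z, r x y → r y z → r x z
  wqo : WQO r
  mul : ∀ x y u v, r x y → r (u ++ x ++ v) (u ++ y ++ v)
  len : ∀ x y, r x y → x.length ≤ y.length

/-- One step of a production system. -/
def Step {A : Type} (P : Finset (List A × List A)) (x y : List A) : Prop :=
  ∃ p ∈ P, ∃ s t, x = s ++ p.1 ++ t ∧ y = s ++ p.2 ++ t

/-- The quasi-order: scattered subword, and the numbers of letters `true` agree when truncated
at `2`. -/
def R (x y : List Bool) : Prop :=
  x.Sublist y ∧ min 2 (x.count true) = min 2 (y.count true)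

lemma higman {A : Type} [Finite A] : WQO (fun x y : List A => x.Sublist y) := by
  intro f
  have h1 : (Set.univ : Set A).PartiallyWellOrderedOn (· = ·) :=
    Set.finite_univ.partiallyWellOrderedOn
  have h2 := Set.PartiallyWellOrderedOn.partiallyWellOrderedOn_sublistForall₂ (· = ·) h1
  obtain ⟨i, j, hij, h⟩ := h2 (fun n => ⟨f n, fun x _ => Set.mem_univ x⟩)
  refine ⟨i, j, hij, ?_⟩
  have h' : List.SublistForall₂ (· = ·) (f i) (f j) := h
  rw [List.sublistForall₂_iff] at h'
  obtain ⟨l, hl, hs⟩ := h'
  rw [List.forall₂_eq_eq_eq] at hl
  rw [show f i = l from hl]; exact hs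

lemma good_R : Good R where
  refl x := ⟨List.Sublist.refl _, rfl⟩
  trans x y z h1 h2 := ⟨h1.1.trans h2.1, h1.2.trans h2.2⟩
  wqo := by
    intro f
    obtain ⟨c, hc⟩ := Finite.exists_infinite_fiber
      (fun n => (⟨min 2 ((f n).count true), by omega⟩ : Fin 3))
    have hinf : (Set.ofPred fun n => (⟨min 2 ((f n).count true), by omega⟩ : Fin 3) = c).Infinite :=
      Set.infinite_coe_iff.1 hc
    obtain ⟨i, j, hij, h⟩ := higman (fun n => f (Nat.nth _ n))
    refine ⟨_, _, Nat.nth_strictMono hinf hij, h, ?_⟩
    have h1 := Nat.nth_mem_of_infinite hinf i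
    have h2 := Nat.nth_mem_of_infinite hinf j
    exact Fin.mk.inj (h1.trans h2.symm)
  mul x y u v h := by
    refine ⟨(List.Sublist.refl u).append h.1 |>.append (List.Sublist.refl v), ?_⟩
    have := h.2
    simp only [List.count_append]
    omega
  len x y h := h.1.length_le

/-- Any two letters `true` are separated by at least `N` letters `false`; `c` letters `false` have
been read since the last letter `true`. -/
def G (N : ℕ) : ℕ → List Bool → Prop
  | _, [] => True
  | c, true :: w => N ≤ c ∧ G N 0 w
  | c, false :: w => G N (c + 1) w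

lemma G_mono {N : ℕ} : ∀ {w : List Bool} {c c' : ℕ}, c ≤ c' → G N c w → G N c' w
  | [], _, _, _, _ => trivial
  | true :: _, _, _, h, hw => ⟨hw.1.trans h, hw.2⟩
  | false :: w, c, c', h, hw =>
    show G N (c' + 1) w from G_mono (c := c + 1) (c' := c' + 1) (by omega) hw

lemma G_sub {N : ℕ} {x y : List Bool} (h : x.Sublist y) :
    x.count true = y.count true → ∀ c, G N c x → G N c y := by
  induction h with
  | slnil => intro _ _ h; exact h
  | @cons l₁ l₂ a h ih =>
    intro hc c hG
    have h1 := h.count_le true
    rcases a with _ | _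
    · simp only [List.count_cons, beq_iff_eq, Bool.false_eq_true, if_false, add_zero] at hc
      exact ih hc _ (G_mono (Nat.le_succ c) hG)
    · simp only [List.count_cons_self] at hc
      omega
  | @cons_cons l₁ l₂ a h ih =>
    intro hc c hG
    rcases a with _ | _
    · simp only [List.count_cons, beq_iff_eq, Bool.false_eq_true, if_false, add_zero] at hc
      exact ih hc _ hG
    · simp only [List.count_cons_self, Nat.add_right_cancel_iff] at hc
      exact ⟨hG.1, ih hc _ hG.2⟩

lemma G_drop {N : ℕ} (s : List Bool) : ∀ {w : List Bool} {c : ℕ}, G N c (s ++ w) → ∃ c', G N c' w := by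
  induction s with
  | nil => intro w c h; exact ⟨c, h⟩
  | cons a s ih =>
    intro w c h
    rcases a with _ | _
    · exact ih h
    · exact ih h.2

lemma G_take {N : ℕ} (s : List Bool) : ∀ {w : List Bool} {c : ℕ}, G N c (s ++ w) → G N c s := by
  induction s with
  | nil => intro w c h; exact trivial
  | cons a s ih =>
    intro w c h
    rcases a with _ | _
    · exact ih (w := w) h
    · exact ⟨h.1, ih h.2⟩

lemma G_one {N : ℕ} (s : List Bool) : ∀ {c : ℕ}, G N c s → 1 ≤ s.count true →
    N + 1 ≤ c + s.length := by
  induction s with
  | nil => intro c _ h; simp at h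
  | cons a s ih =>
    intro c h h1
    rcases a with _ | _
    · simp only [List.count_cons, beq_iff_eq, Bool.false_eq_true, if_false, add_zero] at h1
      have := ih (c := c + 1) h h1
      simp only [List.length_cons]; omega
    · have := h.1
      simp only [List.length_cons]; omega

lemma G_two {N : ℕ} (s : List Bool) : ∀ {c : ℕ}, G N c s → 2 ≤ s.count true →
    N + 2 ≤ s.length := by
  induction s with
  | nil => intro c _ h; simp at h
  | cons a s ih =>
    intro c h h1
    rcases a with _ | _
    · simp only [List.count_cons, beq_iff_eq, Bool.false_eq_true, if_false, add_zero] at h1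
      have := ih (c := c + 1) h h1
      simp only [List.length_cons]; omega
    · simp only [List.count_cons_self] at h1
      have := G_one s h.2 (by omega)
      simp only [List.length_cons]; omega

/-- The words of the antichain. -/
def W (N : ℕ) : ℕ → List Bool
  | 0 => []
  | k + 1 => List.replicate N false ++ true :: W N k

lemma W_count (N k : ℕ) : (W N k).count true = k := by
  induction k with
  | zero => rfl
  | succ k ih => simp [W, List.count_append, List.count_replicate, ih]

lemma G_rep {N : ℕ} (m : ℕ) : ∀ {w : List Bool} {c : ℕ}, G N (c + m) w →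
    G N c (List.replicate m false ++ w) := by
  induction m with
  | zero => intro w c h; exact h
  | succ m ih =>
    intro w c h
    rw [List.replicate_succ]
    exact ih (c := c + 1) (by rwa [show c + 1 + m = c + (m + 1) by ring])

lemma W_G (N k : ℕ) : G N 0 (W N k) := by
  induction k with
  | zero => trivial
  | succ k ih => exact G_rep N ⟨by omega, ih⟩

lemma inv_step {P : Finset (List Bool × List Bool)} (hP : ∀ p ∈ P, R p.1 p.2) {N : ℕ}
    (hN : ∀ p ∈ P, p.1.length ≤ N) {x y : List Bool} (h : Step P x y) (hx : G N 0 x) :
    G N 0 y ∧ y.count true = x.count true := by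
  obtain ⟨p, hp, s, t, rfl, rfl⟩ := h
  have h1 : p.1.count true ≤ 1 := by
    by_contra hlt
    rw [List.append_assoc] at hx
    obtain ⟨c', hc'⟩ := G_drop s hx
    have := G_two p.1 (G_take p.1 hc') (by omega)
    have := hN p hp
    omega
  have h2 := (hP p hp).2
  have h3 : p.2.count true = p.1.count true := by omega
  have h4 : (s ++ p.2 ++ t).count true = (s ++ p.1 ++ t).count true := by
    simp only [List.count_append]; omega
  exact ⟨G_sub ((List.Sublist.refl s).append (hP p hp).1 |>.append (List.Sublist.refl t))
    h4.symm 0 hx, h4⟩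

/-- **Main theorem.** There is a length-increasing multiplicative well-quasi-order (even a partial
order) on the words over a two-letter alphabet such that no finite production system contained in it
has a derivation relation which is a well-quasi-order. -/
theorem result : ∃ r : List Bool → List Bool → Prop, Good r ∧
    (∀ x y, r x y → r y x → x = y) ∧
    ∀ P : Finset (List Bool × List Bool), (∀ p ∈ P, r p.1 p.2) →
      ¬ WQO (ReflTransGen (Step P)) := by
  refine ⟨R, good_R, fun x y h1 h2 => h1.1.antisymm h2.1, ?_⟩
  intro P hP hW
  obtain ⟨N, hN⟩ : ∃ N, ∀ p ∈ P, p.1.length ≤ N :=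
    ⟨P.sup (fun p => p.1.length), fun p hp => Finset.le_sup (f := fun p => p.1.length) hp⟩
  obtain ⟨i, j, hij, h⟩ := hW (W N)
  have key : ∀ y, ReflTransGen (Step P) (W N i) y → G N 0 y ∧ y.count true = i := by
    intro y hy
    induction hy with
    | refl => exact ⟨W_G N i, W_count N i⟩
    | tail _ hs ih =>
      have := inv_step hP hN hs ih.1
      exact ⟨this.1, this.2.trans ih.2⟩
  have := (key _ h).2
  rw [W_count] at this
  omega

end Pool.Agent.Results.MP_577ba1_lc.NoFiniteSystem
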